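import Pool.Agent.Q238.AR.Main

/-!
# MP_dd8834_al: an abelian subgroup which is not a direct sum of cyclic groups

`RigidSurface` (a locally finite planar tree, thickened in the plane, with a rigid structure) and
its asymptotically rigid mapping class group `RigidSurface.Mod` are defined in
`Pool.Agent.Q238.AR.Defs`. The example is the tree `A_{2,1}`, with one vertex of degree one and
all other vertices of degree three.
-/

set_option autoImplicit false

namespace Pool.Agent.Results.MP_dd8834_al.PrueferSubgroup

open Pool.Agent.Q238.AR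

universe u

/-- There is a locally finite planar tree with one vertex of degree one and all other vertices of
degree three whose asymptotically rigid mapping class group has an abelian subgroup which is not
isomorphic to a direct sum of cyclic groups. -/
theorem result : ∃ X : RigidSurface,
    (∃ v0 : X.V, (X.T.neighborSet v0).ncard = 1 ∧
      ∀ v, v ≠ v0 → (X.T.neighborSet v).ncard = 3) ∧
    ∃ H : Subgroup X.Mod, (∀ a ∈ H, ∀ b ∈ H, a * b = b * a) ∧
      ∀ (ι : Type u) (n : ι → ℕ), IsEmpty (Additive H ≃+ DirectSum ι fun i => ZMod (n i)) := by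
  classical
  refine ⟨XX, ⟨(0 : ℕ), XX_tree.1, XX_tree.2⟩, HHH, fun a ha b hb => HHH_comm ha hb,
    fun ι n => ⟨fun e => ?_⟩⟩
  have hz : ∀ i, Subsingleton (ZMod (n i)) := by
    intro i
    let w : DirectSum ι fun i => ZMod (n i) := DirectSum.of (fun i => ZMod (n i)) i 1
    let h : HHH := (e.symm w).toMul
    have he : e (Additive.ofMul h) = w := e.apply_symm_apply w
    have hw : w i = 1 := DirectSum.of_eq_same i 1
    obtain ⟨k, hk⟩ := HHH_pow h.2
    obtain ⟨y, hy, hyk⟩ := HHH_div_pow k h.2
    have h1 : (2 ^ k) • w = 0 := by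
      have h2 : h ^ 2 ^ k = 1 := Subtype.ext hk
      have h3 : (2 ^ k) • Additive.ofMul h = 0 := by
        rw [← ofMul_pow, h2]
        rfl
      rw [← he, ← map_nsmul, h3, map_zero]
    have h4 : (2 ^ k) • e (Additive.ofMul (⟨y, hy⟩ : HHH)) = w := by
      have h5 : (⟨y, hy⟩ : HHH) ^ 2 ^ k = h := Subtype.ext hyk
      rw [← he, ← map_nsmul, ← ofMul_pow, h5]
    have h6 : ((2 ^ k : ℕ) : ZMod (n i)) = 0 := by
      have := congrArg (fun f => f i) h1
      simp only [DirectSum.zero_apply] at this
      have h7 : ((2 ^ k) • w) i = (2 ^ k) • w i := rfl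
      rw [h7, hw, nsmul_eq_mul, mul_one] at this
      exact this
    have h8 : ((2 ^ k : ℕ) : ZMod (n i)) * (e (Additive.ofMul (⟨y, hy⟩ : HHH))) i = 1 := by
      have := congrArg (fun f => f i) h4
      simp only at this
      have h7 : ((2 ^ k) • e (Additive.ofMul (⟨y, hy⟩ : HHH))) i
        = (2 ^ k) • (e (Additive.ofMul (⟨y, hy⟩ : HHH))) i := rfl
      rw [h7, hw, nsmul_eq_mul] at this
      exact this
    rw [h6, zero_mul] at h8
    exact subsingleton_of_zero_eq_one h8
  have hall : ∀ a : Additive HHH, a = 0 := by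
    intro a
    apply e.injective
    rw [map_zero]
    ext i
    exact @Subsingleton.elim _ (hz i) _ _
  have h1 : (⟨ck 1, ck_mem 1⟩ : HHH) = 1 := congrArg Additive.toMul
    (hall (Additive.ofMul (⟨ck 1, ck_mem 1⟩ : HHH)))
  exact ck_one (congrArg Subtype.val h1)

end Pool.Agent.Results.MP_dd8834_al.PrueferSubgroup
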